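import Mathlib
import Pool.Agent.H8.Kritz1

/-!
Greedy L2 (Kritzinger) sequences in dimension one: the star discrepancy of the first `N` points
is at most `(2 log N + 3 m + 10) / N`.
-/

namespace Pool.Agent.Results.MP_c285df_nt.DimOneLogBound

open Finset

/-- The half-open unit cube `[0,1)^d`. -/
def cube (d : ℕ) : Set (Fin d → ℝ) := {x | ∀ r, 0 ≤ x r ∧ x r < 1}

/-- Warnock's formula `d_2^*(z_0, ..., z_{n-1})` for the squared L2 star discrepancy. -/
noncomputable def warnock (d n : ℕ) (z : ℕ → Fin d → ℝ) : ℝ :=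
  (3 : ℝ) ^ (-(d : ℤ))
    - (2 : ℝ) ^ (1 - (d : ℤ)) / n * ∑ i ∈ range n, ∏ r, (1 - (z i r) ^ 2)
    + 1 / (n : ℝ) ^ 2 * ∑ i ∈ range n, ∑ j ∈ range n, ∏ r, (1 - max (z i r) (z j r))

/-- `z` is a Kritzinger sequence in `[0,1)^d` whose arbitrary nonempty initial list is
`z 0, ..., z (m-1)`: every later point `z n` (`n ≥ m`) is some minimiser over `y` in `[0,1)^d` of
`d_2^*(z 0, ..., z (n-1), y)`. -/
structure IsKritzinger (d m : ℕ) (z : ℕ → Fin d → ℝ) : Prop where
  nonempty : 1 ≤ m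
  mem : ∀ i, z i ∈ cube d
  greedy : ∀ n, m ≤ n → ∀ y ∈ cube d,
    warnock d (n + 1) z ≤ warnock d (n + 1) (Function.update z n y)

/-- Star discrepancy `D_N^*` of the first `N` points `z 0, ..., z (N-1)`. -/
noncomputable def starDisc (d N : ℕ) (z : ℕ → Fin d → ℝ) : ℝ :=
  ⨆ q : cube d,
    |(((range N).filter (fun i => ∀ r, 0 ≤ z i r ∧ z i r < q.1 r)).card : ℝ) / N - ∏ r, q.1 r|

lemma warnock_one (n : ℕ) (z : ℕ → Fin 1 → ℝ) (y : Fin 1 → ℝ) :
    warnock 1 (n + 1) (Function.update z n y)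
      = 1 / ((n : ℝ) + 1) ^ 2 * (-2 * H8.Kritz1.Phi (fun i => z i 0) n (y 0))
        + (1 / 3 - 1 / ((n : ℝ) + 1) * ∑ i ∈ range n, (1 - (z i 0) ^ 2)
          + 1 / ((n : ℝ) + 1) ^ 2 * (∑ i ∈ range n, ∑ j ∈ range n, (1 - max (z i 0) (z j 0))
            + 2 * ∑ i ∈ range n, (1 - z i 0) - n)) := by
  have hn : ((n : ℝ) + 1) ≠ 0 := by positivity
  have e0 : ∀ i ∈ range n, Function.update z n y i = z i := by
    intro i hi
    rw [Function.update_of_ne (by rw [mem_range] at hi; omega)]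
  have e1 : Function.update z n y n = y := Function.update_self _ _ _
  have s1 : ∑ i ∈ range (n + 1), ∏ r, (1 - (Function.update z n y i r) ^ 2)
      = ∑ i ∈ range n, (1 - (z i 0) ^ 2) + (1 - (y 0) ^ 2) := by
    rw [sum_range_succ, e1]
    congr 1
    · apply sum_congr rfl
      intro i hi
      rw [e0 i hi]; simp
    · simp
  have s2 : ∑ i ∈ range (n + 1), ∑ j ∈ range (n + 1),
        ∏ r, (1 - max (Function.update z n y i r) (Function.update z n y j r))
      = ∑ i ∈ range n, ∑ j ∈ range n, (1 - max (z i 0) (z j 0))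
        + 2 * ∑ i ∈ range n, (1 - max (z i 0) (y 0)) + (1 - y 0) := by
    rw [sum_range_succ, sum_range_succ, e1]
    have a1 : ∀ i ∈ range n, ∑ j ∈ range (n + 1),
        ∏ r, (1 - max (Function.update z n y i r) (Function.update z n y j r))
        = ∑ j ∈ range n, (1 - max (z i 0) (z j 0)) + (1 - max (z i 0) (y 0)) := by
      intro i hi
      rw [sum_range_succ, e1, e0 i hi]
      congr 1
      · apply sum_congr rfl
        intro j hj
        rw [e0 j hj]; simp
      · simp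
    rw [sum_congr rfl a1, sum_add_distrib]
    have a2 : ∑ j ∈ range n, ∏ r, (1 - max (y r) (Function.update z n y j r))
        = ∑ i ∈ range n, (1 - max (z i 0) (y 0)) := by
      apply sum_congr rfl
      intro j hj
      rw [e0 j hj]; simp [max_comm]
    rw [a2]
    simp
    ring
  have s3 : ∑ i ∈ range n, (1 - max (z i 0) (y 0))
      = ∑ i ∈ range n, (1 - z i 0) - H8.Kritz1.G (fun i => z i 0) n (y 0) := by
    unfold H8.Kritz1.G
    rw [← sum_sub_distrib]
    apply sum_congr rfl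
    intro i _
    rcases le_total (z i 0) (y 0) with h | h
    · rw [max_eq_right h, max_eq_left (by linarith)]; ring
    · rw [max_eq_left h, max_eq_right (by linarith)]; ring
  unfold warnock
  rw [s1, s2, s3]
  unfold H8.Kritz1.Phi
  norm_num
  field_simp
  ring

lemma greedy_Phi {m : ℕ} {z : ℕ → Fin 1 → ℝ} (h : IsKritzinger 1 m z) :
    ∀ n, m ≤ n → ∀ x, 0 ≤ x → x < 1 →
      H8.Kritz1.Phi (fun i => z i 0) n x ≤ H8.Kritz1.Phi (fun i => z i 0) n (z n 0) := by
  intro n hn x hx0 hx1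
  have h1 := h.greedy n hn (fun _ => x) (fun _ => ⟨hx0, hx1⟩)
  have h2 : warnock 1 (n + 1) z = warnock 1 (n + 1) (Function.update z n (z n)) := by
    rw [Function.update_eq_self]
  rw [h2, warnock_one, warnock_one] at h1
  have hpos : 0 < 1 / ((n : ℝ) + 1) ^ 2 := by positivity
  have h3 := le_of_mul_le_mul_left (le_of_add_le_add_right h1) hpos
  linarith

/-- Every Kritzinger sequence in `[0,1)` satisfies `N D_N^* ≤ 2 log N + 3 m + 10`. -/
theorem result (m : ℕ) (z : ℕ → Fin 1 → ℝ) (h : IsKritzinger 1 m z) (N : ℕ) (hN : 1 ≤ N) :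
    starDisc 1 N z ≤ (2 * Real.log N + 3 * m + 10) / N := by
  have hN0 : (0 : ℝ) < N := by exact_mod_cast hN
  have : Nonempty (cube 1) := ⟨⟨fun _ => 0, fun _ => ⟨le_rfl, one_pos⟩⟩⟩
  unfold starDisc
  apply ciSup_le
  rintro ⟨q, hq⟩
  have h1 := H8.Kritz1.main_one (z := fun i => z i 0) (m := m) (fun i => h.mem i 0)
    (greedy_Phi h) hN (q := q 0) (hq 0).1 (hq 0).2.le
  have h2 : ((range N).filter (fun i => ∀ r, 0 ≤ z i r ∧ z i r < q r))
      = ((range N).filter (fun i => z i 0 < q 0)) := by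
    ext i
    simp only [mem_filter, Fin.forall_fin_one]
    constructor
    · rintro ⟨a, -, b⟩; exact ⟨a, b⟩
    · rintro ⟨a, b⟩; exact ⟨a, (h.mem i 0).1, b⟩
  simp only
  rw [h2, le_div_iff₀ hN0, Fin.prod_univ_one, ← abs_of_pos hN0, ← abs_mul, abs_of_pos hN0]
  rw [sub_mul, div_mul_cancel₀ _ hN0.ne', mul_comm (q 0)]
  exact h1

end Pool.Agent.Results.MP_c285df_nt.DimOneLogBound
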