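import Mathlib
import Pool.Agent.H36.KD.Main

/-!
Greedy L2 (Kritzinger) sequences in every dimension `d ≥ 1`: a bound for the star discrepancy whose
exponent does not depend on the dimension, `D_N^* = O((log N)^{d-1} / N^{1/3})`, with a constant
depending only on `d` and on the number `m` of initial points.
-/

namespace Pool.Agent.Results.MP_c285df_nt.DimensionFree

open Finset

/-- The half-open unit cube `[0,1)^d`. -/
def cube (d : ℕ) : Set (Fin d → ℝ) := {x | ∀ r, 0 ≤ x r ∧ x r < 1}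

/-- Warnock's formula `d_2^*(z_0, ..., z_{n-1})` for the squared L2 star discrepancy. -/
noncomputable def warnock (d n : ℕ) (z : ℕ → Fin d → ℝ) : ℝ :=
  (3 : ℝ) ^ (-(d : ℤ))
    - (2 : ℝ) ^ (1 - (d : ℤ)) / n * ∑ i ∈ range n, ∏ r, (1 - (z i r) ^ 2)
    + 1 / (n : ℝ) ^ 2 * ∑ i ∈ range n, ∑ j ∈ range n, ∏ r, (1 - max (z i r) (z j r))

/-- `z` is a Kritzinger sequence in `[0,1)^d` whose arbitrary nonempty initial list is
`z 0, ..., z (m-1)`: every later point `z n` (`n ≥ m`) is some minimiser over `y` in `[0,1)^d` of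
`d_2^*(z 0, ..., z (n-1), y)`. -/
structure IsKritzinger (d m : ℕ) (z : ℕ → Fin d → ℝ) : Prop where
  nonempty : 1 ≤ m
  mem : ∀ i, z i ∈ cube d
  greedy : ∀ n, m ≤ n → ∀ y ∈ cube d,
    warnock d (n + 1) z ≤ warnock d (n + 1) (Function.update z n y)

/-- Star discrepancy `D_N^*` of the first `N` points `z 0, ..., z (N-1)`. -/
noncomputable def starDisc (d N : ℕ) (z : ℕ → Fin d → ℝ) : ℝ :=
  ⨆ q : cube d,
    |(((range N).filter (fun i => ∀ r, 0 ≤ z i r ∧ z i r < q.1 r)).card : ℝ) / N - ∏ r, q.1 r|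

/-- For every dimension `d ≥ 1` and every `m` there is a constant `C` such that every Kritzinger
sequence in `[0,1)^d` with `m` initial points satisfies
`D_N^* ≤ C (log N)^{d-1} / N^{1/3}` for all `N ≥ 2`. -/
theorem result (d : ℕ) (hd : 1 ≤ d) (m : ℕ) :
    ∃ C : ℝ, ∀ z : ℕ → Fin d → ℝ, IsKritzinger d m z → ∀ N : ℕ, 2 ≤ N →
      starDisc d N z ≤ C * Real.log N ^ (d - 1) / (N : ℝ) ^ (1 / 3 : ℝ) := by
  obtain ⟨k, rfl⟩ : ∃ k, d = k + 1 := ⟨d - 1, by omega⟩
  rw [Nat.add_sub_cancel]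
  obtain ⟨C, hC⟩ := H36.KD.main k m
  exact ⟨C, fun z h N hN => hC z ⟨h.nonempty, h.mem, h.greedy⟩ N hN⟩

end Pool.Agent.Results.MP_c285df_nt.DimensionFree
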