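import Mathlib
import Pool.Agent.H36.KJ.Final2

/-!
Greedy L2 (Kritzinger) sequences in dimension `d ≥ 2`: a bound for the discrepancy of every box
`[0,q)`, `q` in `[0,1)^d`, which improves with the distances `1 - q r` of the box to the upper faces
of the cube: `O((log N)^{2d} / (N^{d/(3d-2)} ∏ (1 - q r)^{2/(3d-2)}))`; for `d = 2` this is
`O((log N)^4 / sqrt (N (1 - q 0) (1 - q 1)))`.
-/

namespace Pool.Agent.Results.MP_c285df_nt.EveryBox

open Finset

/-- The half-open unit cube `[0,1)^d`. -/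
def cube (d : ℕ) : Set (Fin d → ℝ) := {x | ∀ r, 0 ≤ x r ∧ x r < 1}

/-- Warnock's formula `d_2^*(z_0, ..., z_{n-1})` for the squared L2 star discrepancy. -/
noncomputable def warnock (d n : ℕ) (z : ℕ → Fin d → ℝ) : ℝ :=
  (3 : ℝ) ^ (-(d : ℤ))
    - (2 : ℝ) ^ (1 - (d : ℤ)) / n * ∑ i ∈ range n, ∏ r, (1 - (z i r) ^ 2)
    + 1 / (n : ℝ) ^ 2 * ∑ i ∈ range n, ∑ j ∈ range n, ∏ r, (1 - max (z i r) (z j r))

/-- `z` is a Kritzinger sequence in `[0,1)^d` whose arbitrary nonempty initial list is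
`z 0, ..., z (m-1)`: every later point `z n` (`n ≥ m`) is some minimiser over `y` in `[0,1)^d` of
`d_2^*(z 0, ..., z (n-1), y)`. -/
structure IsKritzinger (d m : ℕ) (z : ℕ → Fin d → ℝ) : Prop where
  nonempty : 1 ≤ m
  mem : ∀ i, z i ∈ cube d
  greedy : ∀ n, m ≤ n → ∀ y ∈ cube d,
    warnock d (n + 1) z ≤ warnock d (n + 1) (Function.update z n y)

/-- For every dimension `d ≥ 2` and every `m` there is a constant `C` such that for every
Kritzinger sequence in `[0,1)^d` with `m` initial points, all `N ≥ 2` and all `q` in `[0,1)^d`,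
the proportion of the first `N` points in `∏ [0, q r)` differs from `∏ q r` by at most
`C (log N)^{2d} / (N^{d/(3d-2)} ∏ (1 - q r)^{2/(3d-2)})`. -/
theorem result (d : ℕ) (hd : 2 ≤ d) (m : ℕ) :
    ∃ C : ℝ, ∀ z : ℕ → Fin d → ℝ, IsKritzinger d m z → ∀ N : ℕ, 2 ≤ N →
      ∀ q ∈ cube d,
        |(((range N).filter (fun i => ∀ r, z i r < q r)).card : ℝ) / N - ∏ r, q r| ≤
          C * Real.log N ^ (2 * d) / ((N : ℝ) ^ ((d : ℝ) / (3 * d - 2)) *
            (∏ r, (1 - q r)) ^ (2 / (3 * (d : ℝ) - 2))) := by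
  obtain ⟨k, rfl⟩ : ∃ k, d = k + 1 := ⟨d - 1, by omega⟩
  obtain ⟨C, hC⟩ := H36.KJ.final2 k m (by omega)
  refine ⟨C, fun z h N hN q hq => ?_⟩
  have h1 := hC z ⟨h.nonempty, h.mem, h.greedy⟩ N hN q hq
  have e : 3 * ((k + 1 : ℕ) : ℝ) - 2 = 3 * k + 1 := by
    push_cast
    ring
  rw [e]
  push_cast
  exact h1

end Pool.Agent.Results.MP_c285df_nt.EveryBox
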