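import Mathlib
import Pool.Agent.H36.KS.Fin
import Pool.Agent.H36.KS.All

/-!
Greedy L2 (Kritzinger) sequences in every dimension `d ≥ 1`: the local discrepancy averaged against
smooth weights, and the error of the equal weight rule for smooth functions, have size `O(1/N)`, with
no logarithm, for most `N`, and size `O(1/√(N log N))` for every `N`.
-/

namespace Pool.Agent.Results.MP_c285df_nt.SmoothErrorInTheMean

open Finset MeasureTheory

/-- The half-open unit cube `[0,1)^d`. -/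
def cube (d : ℕ) : Set (Fin d → ℝ) := {x | ∀ r, 0 ≤ x r ∧ x r < 1}

/-- Warnock's formula `d_2^*(z_0, ..., z_{n-1})` for the squared L2 star discrepancy. -/
noncomputable def warnock (d n : ℕ) (z : ℕ → Fin d → ℝ) : ℝ :=
  (3 : ℝ) ^ (-(d : ℤ))
    - (2 : ℝ) ^ (1 - (d : ℤ)) / n * ∑ i ∈ range n, ∏ r, (1 - (z i r) ^ 2)
    + 1 / (n : ℝ) ^ 2 * ∑ i ∈ range n, ∑ j ∈ range n, ∏ r, (1 - max (z i r) (z j r))

/-- `z` is a Kritzinger sequence in `[0,1)^d` whose arbitrary nonempty initial list is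
`z 0, ..., z (m-1)`: every later point `z n` (`n ≥ m`) is some minimiser over `y` in `[0,1)^d` of
`d_2^*(z 0, ..., z (n-1), y)`. -/
structure IsKritzinger (d m : ℕ) (z : ℕ → Fin d → ℝ) : Prop where
  nonempty : 1 ≤ m
  mem : ∀ i, z i ∈ cube d
  greedy : ∀ n, m ≤ n → ∀ y ∈ cube d,
    warnock d (n + 1) z ≤ warnock d (n + 1) (Function.update z n y)

/-- The closed unit cube `[0,1]^d`. -/
def closedCube (d : ℕ) : Set (Fin d → ℝ) := Set.Icc 0 1

/-- The half-open box `[0,q)`. -/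
def box {d : ℕ} (q : Fin d → ℝ) : Set (Fin d → ℝ) := {y | ∀ r, 0 ≤ y r ∧ y r < q r}

/-- The local discrepancy `#{i < N : z i ∈ [0,q)} - N q_1 ⋯ q_d` of the first `N` points
(not divided by `N`). -/
noncomputable def locDisc {d : ℕ} (z : ℕ → Fin d → ℝ) (N : ℕ) (q : Fin d → ℝ) : ℝ :=
  (((range N).filter (fun i => ∀ r, 0 ≤ z i r ∧ z i r < q r)).card : ℝ) - N * ∏ r, q r

/-- `N` times the error of the equal weight rule on the first `N` points for `f`. -/
noncomputable def err {d : ℕ} (z : ℕ → Fin d → ℝ) (N : ℕ) (f : (Fin d → ℝ) → ℝ) : ℝ :=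
  ∑ i ∈ range N, f (z i) - N * ∫ x in closedCube d, f x

/-- The function `x ↦ ∫ ∏_r (1 - max (x_r, y_r)) g(y) dy` over `[0,1]^d`. -/
noncomputable def prim {d : ℕ} (g : (Fin d → ℝ) → ℝ) (x : Fin d → ℝ) : ℝ :=
  ∫ y in closedCube d, (∏ r, (1 - max (x r) (y r))) * g y

/-- For every `m` there is a `C` such that every Kritzinger sequence `z` in any dimension `d ≥ 1`
with `m` initial points has numbers `w n` with: mean over `m ≤ n < M` bounded, mean over a window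
after `i` at most `w i + 1/2`, `w N ≤ C √(N / log N)` for every `N`, and, with
`Φ = w i + √(2 (N - i) w i)` for `m ≤ i ≤ N` (so `Φ = w N` for `i = N`):
all averages of the local discrepancy against `q ↦ ∫_{[0,q)} g` and all errors for `prim g`
are at most `Φ B` when `|g| ≤ B` and `∫ g = 0` (from above when `∫ g ≥ 0`), and all errors for
products `∏_r φ_r(x_r)` with `φ_r'(0) = 0`, `φ_r(1) = 0`, `|φ_r''| ≤ B_r` are at most
`Φ ∏_r B_r` when some `φ_r'(1) = 0` (from above when all `φ_r'(1) ≤ 0`). -/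
theorem result (m : ℕ) : ∃ C : ℝ, ∀ d : ℕ, 1 ≤ d → ∀ z : ℕ → Fin d → ℝ, IsKritzinger d m z →
    ∃ w : ℕ → ℝ,
      (∀ n, m ≤ n → 1 / 2 ≤ w n) ∧
      (∀ M : ℕ, m ≤ M → ∑ n ∈ Ico m M, w n ≤ (m : ℝ) ^ 2 + M) ∧
      (∀ i L : ℕ, m ≤ i → ∑ n ∈ Ico i (i + L), w n ≤ L * (w i + 1 / 2)) ∧
      (∀ N : ℕ, m ≤ N → 2 ≤ N → w N ≤ C * Real.sqrt (N / Real.log N)) ∧
      (∀ i N : ℕ, m ≤ i → i ≤ N → ∀ (g : (Fin d → ℝ) → ℝ) (B : ℝ), Measurable g →
        (∀ y ∈ closedCube d, |g y| ≤ B) →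
        (0 ≤ ∫ y in closedCube d, g y →
          ∫ q in closedCube d, locDisc z N q * (∫ y in box q, g y) ≤
            (w i + Real.sqrt (2 * ((N : ℝ) - i) * w i)) * B ∧
          err z N (prim g) ≤ (w i + Real.sqrt (2 * ((N : ℝ) - i) * w i)) * B) ∧
        (∫ y in closedCube d, g y = 0 →
          |∫ q in closedCube d, locDisc z N q * (∫ y in box q, g y)| ≤
            (w i + Real.sqrt (2 * ((N : ℝ) - i) * w i)) * B ∧
          |err z N (prim g)| ≤ (w i + Real.sqrt (2 * ((N : ℝ) - i) * w i)) * B)) ∧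
      (∀ i N : ℕ, m ≤ i → i ≤ N → ∀ (φ : Fin d → ℝ → ℝ) (B : Fin d → ℝ),
        (∀ r, ContDiff ℝ 2 (φ r)) → (∀ r, deriv (φ r) 0 = 0) → (∀ r, φ r 1 = 0) →
        (∀ r, ∀ t ∈ Set.Icc (0 : ℝ) 1, |deriv (deriv (φ r)) t| ≤ B r) →
        ((∀ r, deriv (φ r) 1 ≤ 0) →
          err z N (fun x => ∏ r, φ r (x r)) ≤
            (w i + Real.sqrt (2 * ((N : ℝ) - i) * w i)) * ∏ r, B r) ∧
        ((∃ r, deriv (φ r) 1 = 0) →
          |err z N (fun x => ∏ r, φ r (x r))| ≤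
            (w i + Real.sqrt (2 * ((N : ℝ) - i) * w i)) * ∏ r, B r)) := by
  rcases Nat.eq_zero_or_pos m with hm | hm
  · refine ⟨0, fun d _ z h => ?_⟩
    have := h.nonempty
    omega
  obtain ⟨C, hC0, hC⟩ := H36.KS.all_bound m hm
  refine ⟨C, fun d hd z h' => ?_⟩
  obtain ⟨k, rfl⟩ : ∃ k, d = k + 1 := ⟨d - 1, by omega⟩
  have h : H47.KZ.IsKritzinger (k + 1) m z := ⟨h'.nonempty, h'.mem, h'.greedy⟩
  refine ⟨H36.KS.wt z, H36.KS.wt_half h, H36.KS.wt_sum h, H36.KS.wt_window h, ?_, ?_, ?_⟩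
  · intro N hN hN2
    have h1 := hC (H36.KS.drop z) (H36.KS.drop_nonneg h) (H36.KS.sum_drop h)
      (fun i N => H36.KS.drop_growth h i N) N hN hN2
    have h2 := H36.KS.drop_nonneg h N hN
    unfold H36.KS.wt
    linarith
  · intro i N hi hN g B hg hB
    exact ⟨H36.KS.disc_one h i N hi hN g B hg hB, H36.KS.disc_two h i N hi hN g B hg hB⟩
  · intro i N hi hN φ B hφ h0 h1 hB
    exact ⟨H36.KS.prod_one h i N hi hN φ B hφ h0 h1 hB, H36.KS.prod_two h i N hi hN φ B hφ h0 h1 hB⟩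

end Pool.Agent.Results.MP_c285df_nt.SmoothErrorInTheMean
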